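import Mathlib
import Pool.Prelude.Def_F_c31e40fa
import Pool.Agent.W677.MD6

set_option autoImplicit false

open Filter Topology N62a1eb23

namespace Pool.Agent.Results.MP_c6f924_an.DichotomyAllScales

open Pool.Agent.H713R2 Pool.Agent.W677.MD

/-- The Laurent coefficients of the exterior conformal map of the Mandelbrot set: either
`∑ |b_m| = ∞`, or for every `ε > 0` the maximum of `m |b_m|` over `(1 - ε) N ≤ m < N` stays above
a positive constant as `N` tends to infinity. -/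
theorem result :
    (∃ (ψ : ℂ → ℂ) (b : ℕ → ℂ), IsExteriorMap mandelbrotSet ψ ∧ HasLaurent ψ b) ∧
    ∀ (ψ : ℂ → ℂ) (b : ℕ → ℂ), IsExteriorMap mandelbrotSet ψ → HasLaurent ψ b →
      (¬ Summable (fun m : ℕ => ‖b m‖)) ∨
      ∀ ε : ℝ, 0 < ε → ∃ c : ℝ, 0 < c ∧ ∀ᶠ N : ℕ in atTop, ∃ m : ℕ,
        (1 - ε) * (N : ℝ) ≤ m ∧ m < N ∧ c ≤ (m : ℝ) * ‖b m‖ := by
  obtain ⟨β, hβ⟩ := exists_beta (d := 2) le_rfl
  refine ⟨⟨_, _, exteriorMap_of_beta hβ, laurent_of_beta hβ⟩, ?_⟩
  intro ψ b hψ hb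
  have h1 := exterior_coeff hβ hψ hb
  by_cases hs : Summable (fun m : ℕ => ‖b m‖)
  · right
    intro ε hε
    have hs' : Summable (fun k => ‖tc β k‖) := by
      rw [← summable_nat_add_iff 1]
      refine hs.congr fun k => ?_
      rw [h1]
    simp only [h1]
    exact dich_all le_rfl hβ hs' hε
  · exact Or.inl hs

end Pool.Agent.Results.MP_c6f924_an.DichotomyAllScales
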